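import Pool.Agent.H51.QD.Lin

/-!
# q-adic bounds for determinants of jets of `F * P`

Rows: a node `a r : ℤ` and a jet `j r`; columns: a type `tc c` and a polynomial `P c`; the entry is
the coefficient of `y ^ j` in `G (tc c) r (y) * P c (a + y)`.
-/

namespace H51QD

open Finset Matrix Polynomial

/-- the `j`-th jet at `a` of the product of the power series with coefficients `F l` and of the
polynomial `P`: the coefficient of `y ^ j` in `F (y) * P (a + y)` -/
noncomputable def jet (F : ℕ → ℚ) (a : ℤ) (j : ℕ) (P : ℚ[X]) : ℚ :=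
  ∑ l ∈ range (j + 1), F l * (hasseDeriv (j - l) P).eval (a : ℚ)

theorem jet_one (F : ℕ → ℚ) (h0 : F 0 = 1) (h1 : ∀ l, 0 < l → F l = 0) (a : ℤ) (j : ℕ)
    (P : ℚ[X]) : jet F a j P = (hasseDeriv j P).eval (a : ℚ) := by
  unfold jet
  rw [Finset.sum_eq_single 0]
  · simp [h0]
  · intro l _ hl
    rw [h1 l (Nat.pos_of_ne_zero hl), zero_mul]
  · intro h
    simp at h

theorem eval_hasseDeriv_X_pow (a : ℚ) (i m : ℕ) :
    (hasseDeriv m (X ^ i : ℚ[X])).eval a = (i.choose m : ℚ) * a ^ (i - m) := by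
  rw [← Polynomial.monomial_one_right_eq_X_pow, hasseDeriv_monomial, eval_monomial]
  ring

/-- change of the centre: Hasse derivatives at `a` in terms of the Taylor coefficients at `b` -/
theorem eval_hasseDeriv_center (P : ℚ[X]) (D : ℕ) (hD : P.natDegree < D) (a b : ℚ) (m : ℕ) :
    (hasseDeriv m P).eval a =
      ∑ i ∈ range D, ((i.choose m : ℚ) * (a - b) ^ (i - m)) * (taylor b P).coeff i := by
  have h1 : (hasseDeriv m P).eval a = (hasseDeriv m (taylor b P)).eval (a - b) := by
    rw [← taylor_coeff, ← taylor_coeff, taylor_taylor]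
    congr 2
    rw [sub_add_cancel]
  have hD' : (taylor b P).natDegree < D := by rwa [natDegree_taylor]
  rw [h1]
  conv_lhs => rw [as_sum_range' (taylor b P) D hD']
  rw [map_sum, eval_finsetSum]
  refine Finset.sum_congr rfl fun i _ => ?_
  rw [hasseDeriv_monomial, eval_monomial]
  ring

theorem jet_center (F : ℕ → ℚ) (a : ℤ) (j : ℕ) (P : ℚ[X]) (D : ℕ) (hD : P.natDegree < D)
    (b : ℚ) : jet F a j P = ∑ i ∈ range D,
      (∑ l ∈ range (j + 1), F l * ((i.choose (j - l) : ℚ) * ((a : ℚ) - b) ^ (i - (j - l)))) *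
        (taylor b P).coeff i := by
  unfold jet
  simp_rw [Finset.sum_mul]
  rw [Finset.sum_comm]
  refine Finset.sum_congr rfl fun l _ => ?_
  rw [eval_hasseDeriv_center P D hD (a : ℚ) b (j - l), Finset.mul_sum]
  exact Finset.sum_congr rfl fun i _ => (mul_assoc _ _ _).symm

section local_

variable {q : ℕ} [hq : Fact q.Prime]

theorem QV.taylor_coeff (P : ℚ[X]) (hP : ∀ i, QV q 0 (P.coeff i)) (b : ℤ) (i : ℕ) :
    QV q 0 ((taylor (b : ℚ) P).coeff i) := by
  rw [Polynomial.taylor_coeff, eval_hasseDeriv_center P (P.natDegree + 1) (Nat.lt_succ_self _)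
    (b : ℚ) 0 i]
  refine QV.sum _ fun k _ => ?_
  have h1 : QV q 0 ((k.choose i : ℚ)) := QV.nat _
  have h2 : QV q 0 (((b : ℚ) - 0) ^ (k - i)) := by
    have := (QV.int (q := q) b).pow (k - i)
    simpa using this
  have h3 : QV q 0 ((taylor (0 : ℚ) P).coeff k) := by
    rw [taylor_zero]
    exact hP k
  have := (h1.mul h2).mul h3
  simpa using this

theorem QV.local_entry (F : ℕ → ℚ) (e : ℤ) (j i : ℕ) (x : ℤ) (hx : (q : ℤ) ∣ x)
    (hF : ∀ l ≤ j, QV q (e - l) (F l)) :
    QV q (e + i - j)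
      (∑ l ∈ range (j + 1), F l * ((i.choose (j - l) : ℚ) * (x : ℚ) ^ (i - (j - l)))) := by
  refine QV.sum _ fun l hl => ?_
  have hlj : l ≤ j := Nat.lt_succ_iff.1 (mem_range.1 hl)
  by_cases hi : i < j - l
  · rw [Nat.choose_eq_zero_of_lt hi]
    simpa using QV.zero _
  push Not at hi
  have h1 : QV q 0 ((i.choose (j - l) : ℚ)) := QV.nat _
  have h2 : QV q 1 ((x : ℚ)) := by
    have := QV.of_dvd (q := q) (k := 1) (n := x) (by simpa using hx)
    simpa using this
  have h3 := h2.pow (i - (j - l))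
  have h4 := (hF l hlj).mul (h1.mul h3)
  refine h4.mono (le_of_eq ?_)
  rw [Nat.cast_sub hi, Nat.cast_sub hlj]
  ring

/-- trivial integrality of an entry -/
theorem QV.jet_int (F : ℕ → ℚ) (a : ℤ) (j : ℕ) (P : ℚ[X]) (hP : ∀ i, QV q 0 (P.coeff i))
    (hF : ∀ l ≤ j, QV q 0 (F l)) : QV q 0 (jet F a j P) := by
  unfold jet
  refine QV.sum _ fun l hl => ?_
  have hlj : l ≤ j := Nat.lt_succ_iff.1 (mem_range.1 hl)
  have h1 : QV q 0 ((hasseDeriv (j - l) P).eval (a : ℚ)) := by
    rw [← Polynomial.taylor_coeff]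
    exact QV.taylor_coeff P hP a _
  have := (hF l hlj).mul h1
  simpa using this

end local_

section count

variable {ι γ τ : Type*} [Fintype ι] [Fintype γ] [DecidableEq γ] [Fintype τ]
  [DecidableEq τ] {D : ℕ}

/-- counting over classes and types -/
theorem core_count (ex : ι → Prop) [DecidablePred ex] (cls : ι → γ) (j : ι → ℕ)
    (e : τ → γ → ℤ) (φ : ι → Option (τ × Fin D))
    (h1 : ∀ r r' k, ex r → ex r' → cls r = cls r' → φ r = some k → φ r' = some k → r = r')
    (h4 : ∀ r, ¬ ex r → φ r = none) :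
    ∑ C, (∑ t, (tri #{r | ex r ∧ cls r = C ∧ (φ r).map Prod.fst = some t} +
        e t C * #{r | ex r ∧ cls r = C ∧ (φ r).map Prod.fst = some t}) -
        ∑ r with ex r ∧ cls r = C, (j r : ℤ)) ≤
      ∑ r, (φ r).elim 0 (fun k => e k.1 (cls r) + (k.2 : ℕ) - j r) := by
  classical
  set f : ι → ℕ := fun r => (φ r).elim 0 (fun k => (k.2 : ℕ)) with hf
  -- the right-hand side as a sum over classes and types
  have hR : ∑ r, (φ r).elim 0 (fun k => e k.1 (cls r) + (k.2 : ℕ) - (j r : ℤ)) =
      ∑ C, ∑ t, ∑ r with ex r ∧ cls r = C ∧ (φ r).map Prod.fst = some t,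
        (e t C + f r - (j r : ℤ)) := by
    have h5 : ∀ r, (φ r).elim 0 (fun k => e k.1 (cls r) + (k.2 : ℕ) - (j r : ℤ)) =
        ∑ C, ∑ t, if ex r ∧ cls r = C ∧ (φ r).map Prod.fst = some t then
          (e t C + f r - (j r : ℤ)) else 0 := by
      intro r
      cases hr : φ r with
      | none => simp
      | some k =>
        have hex : ex r := by
          by_contra hex
          rw [h4 r hex] at hr
          exact absurd hr (by simp)
        rw [Finset.sum_eq_single (cls r), Finset.sum_eq_single k.1]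
        · simp [hex, hf, hr]
        · intro t _ ht
          rw [if_neg]
          rintro ⟨_, _, h⟩
          simp only [Option.map_some, Option.some.injEq] at h
          exact ht h.symm
        · intro h; exact absurd (mem_univ _) h
        · intro C _ hC
          refine Finset.sum_eq_zero fun t _ => ?_
          rw [if_neg]
          rintro ⟨_, h, _⟩
          exact hC h.symm
        · intro h; exact absurd (mem_univ _) h
    rw [Finset.sum_congr rfl fun r _ => h5 r, Finset.sum_comm]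
    refine Finset.sum_congr rfl fun C _ => ?_
    rw [Finset.sum_comm]
    refine Finset.sum_congr rfl fun t _ => ?_
    rw [Finset.sum_filter]
  rw [hR]
  refine Finset.sum_le_sum fun C _ => ?_
  have h6 : ∑ t, ∑ r with ex r ∧ cls r = C ∧ (φ r).map Prod.fst = some t, (j r : ℤ) ≤
      ∑ r with ex r ∧ cls r = C, (j r : ℤ) := by
    have h7 : ∀ t, ∑ r with ex r ∧ cls r = C ∧ (φ r).map Prod.fst = some t, (j r : ℤ) =
        ∑ r with ex r ∧ cls r = C, if (φ r).map Prod.fst = some t then (j r : ℤ) else 0 := by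
      intro t
      rw [← Finset.sum_filter, Finset.filter_filter]
      refine Finset.sum_congr ?_ fun _ _ => rfl
      ext r
      simp only [mem_filter, mem_univ, true_and]
      tauto
    rw [Finset.sum_congr rfl fun t _ => h7 t, Finset.sum_comm]
    refine Finset.sum_le_sum fun r _ => ?_
    cases hr : φ r with
    | none => simp
    | some k =>
      rw [Finset.sum_eq_single k.1]
      · simp
      · intro t _ ht
        rw [if_neg]
        intro h
        simp only [Option.map_some, Option.some.injEq] at h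
        exact ht h.symm
      · intro h; exact absurd (mem_univ _) h
  have h8 : ∀ t, tri #{r | ex r ∧ cls r = C ∧ (φ r).map Prod.fst = some t} +
        e t C * #{r | ex r ∧ cls r = C ∧ (φ r).map Prod.fst = some t} ≤
      ∑ r with ex r ∧ cls r = C ∧ (φ r).map Prod.fst = some t, (e t C + f r : ℤ) := by
    intro t
    have h9 : Set.InjOn f
        (Finset.univ.filter fun r => ex r ∧ cls r = C ∧ (φ r).map Prod.fst = some t) := by
      intro r hr r' hr' hrr
      rw [Finset.mem_coe, mem_filter] at hr hr'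
      obtain ⟨_, hr1, hr2, hr3⟩ := hr
      obtain ⟨_, hs1, hs2, hs3⟩ := hr'
      rw [Option.map_eq_some_iff] at hr3 hs3
      obtain ⟨k, hk, hk2⟩ := hr3
      obtain ⟨k', hk', hk2'⟩ := hs3
      have h10 : k = k' := by
        refine Prod.ext (hk2.trans hk2'.symm) (Fin.ext ?_)
        simpa [hf, hk, hk'] using hrr
      subst h10
      exact h1 r r' k hr1 hs1 (hr2.trans hs2.symm) hk hk'
    have h11 := tri_card_le_sum _ f h9
    rw [Finset.sum_add_distrib, Finset.sum_const, nsmul_eq_mul]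
    linarith
  have h12 := Finset.sum_le_sum fun t (_ : t ∈ (univ : Finset τ)) => h8 t
  have h13 : ∑ t, ∑ r with ex r ∧ cls r = C ∧ (φ r).map Prod.fst = some t,
      (e t C + f r - (j r : ℤ)) =
      ∑ t, ∑ r with ex r ∧ cls r = C ∧ (φ r).map Prod.fst = some t, (e t C + f r : ℤ) -
      ∑ t, ∑ r with ex r ∧ cls r = C ∧ (φ r).map Prod.fst = some t, (j r : ℤ) := by
    rw [← Finset.sum_sub_distrib]
    refine Finset.sum_congr rfl fun t _ => ?_
    rw [Finset.sum_sub_distrib]
  rw [h13]
  linarith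

end count

section main

variable {q : ℕ} [hq : Fact q.Prime] {ι γ τ : Type*} [Fintype ι] [DecidableEq ι] [Fintype γ]
  [DecidableEq γ] [Fintype τ] [DecidableEq τ]

/-- The expansion of a matrix of jets in the local bases of the classes. -/
theorem QV.fmat_core (M : Matrix ι ι ℚ) (ex : ι → Prop) [DecidablePred ex] (cls : ι → γ)
    (c0 : γ → ℤ) (a : ι → ℤ) (j : ι → ℕ) (U : Finset ι) (tc : ι → τ) (P : ι → ℚ[X])
    (G : τ → ι → ℕ → ℚ) (e : τ → γ → ℤ) (B : ℤ)
    (hP : ∀ c, c ∉ U → ∀ i, QV q 0 ((P c).coeff i))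
    (hc0 : ∀ r, ex r → (q : ℤ) ∣ a r - c0 (cls r))
    (hG : ∀ t r l, ex r → l ≤ j r → QV q (e t (cls r) - l) (G t r l))
    (hM : ∀ r c, ex r → c ∉ U → M r c = jet (G (tc c) r) (a r) (j r) (P c))
    (hU : ∀ r c, ex r → c ∈ U → QV q 0 (M r c))
    (hN : ∀ r c, ¬ ex r → QV q 0 (M r c))
    (hB : ∀ (s : τ → γ → ℕ) (u : γ → ℕ),
      (∀ C, ∑ t, s t C + u C = #{r | ex r ∧ cls r = C}) → ∑ C, u C ≤ #U →
      (∀ t, ∑ C, s t C ≤ #{c | c ∉ U ∧ tc c = t}) →
      B ≤ ∑ C, (∑ t, (tri (s t C) + e t C * s t C) - ∑ r with ex r ∧ cls r = C, (j r : ℤ))) :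
    QV q B M.det := by
  classical
  set D : ℕ := (univ.sup fun c => (P c).natDegree) + 1 with hD
  have hDc : ∀ c, (P c).natDegree < D := fun c =>
    Nat.lt_succ_of_le (Finset.le_sup (f := fun c => (P c).natDegree) (mem_univ c))
  refine QV.det_master (κ := τ × Fin D) (τ := τ) M ex cls U
    (fun r k => ∑ l ∈ range (j r + 1), G k.1 r l *
      (((k.2 : ℕ).choose (j r - l) : ℚ) * (((a r - c0 (cls r) : ℤ)) : ℚ) ^
        ((k.2 : ℕ) - (j r - l))))
    (fun g k c => if k.1 = tc c then (taylor ((c0 g : ℤ) : ℚ) (P c)).coeff (k.2 : ℕ) else 0)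
    Prod.fst tc (fun r k => e k.1 (cls r) + (k.2 : ℕ) - j r) B ?_ hU hN ?_ ?_ ?_ ?_
  · intro r c hr hc
    rw [hM r c hr hc, jet_center (G (tc c) r) (a r) (j r) (P c) D (hDc c)
      ((c0 (cls r) : ℤ) : ℚ), Fintype.sum_prod_type, Finset.sum_eq_single (tc c)]
    · rw [Finset.sum_range]
      refine Finset.sum_congr rfl fun i _ => ?_
      simp only [if_true]
      push_cast
      rfl
    · intro t _ ht
      refine Finset.sum_eq_zero fun i _ => ?_
      simp [ht]
    · intro h; exact absurd (mem_univ _) h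
  · intro r k hr
    exact QV.local_entry (G k.1 r) (e k.1 (cls r)) (j r) (k.2 : ℕ) _ (hc0 r hr)
      fun l hl => hG k.1 r l hr hl
  · intro g k c hc
    split_ifs
    · exact QV.taylor_coeff (P c) (hP c hc) _ _
    · exact QV.zero _
  · intro g k c _ h
    rw [if_neg h]
  · intro φ h1 h2 h3 h4
    refine le_trans ?_ (core_count ex cls j e φ h1 h4)
    refine hB (fun t C => #{r | ex r ∧ cls r = C ∧ (φ r).map Prod.fst = some t})
      (fun C => #{r | ex r ∧ cls r = C ∧ φ r = none}) ?_ ?_ ?_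
    · intro C
      have h5 : (univ.filter fun r => ex r ∧ cls r = C) =
          (univ.biUnion fun t => univ.filter fun r => ex r ∧ cls r = C ∧
            (φ r).map Prod.fst = some t) ∪ univ.filter fun r => ex r ∧ cls r = C ∧ φ r = none := by
        ext r
        simp only [mem_filter, mem_univ, true_and, mem_union, mem_biUnion]
        constructor
        · rintro ⟨h6, h7⟩
          cases hr : φ r with
          | none => exact Or.inr ⟨h6, h7, rfl⟩
          | some k => exact Or.inl ⟨k.1, h6, h7, rfl⟩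
        · rintro (⟨t, h6, h7, _⟩ | ⟨h6, h7, _⟩)
          · exact ⟨h6, h7⟩
          · exact ⟨h6, h7⟩
      rw [h5, card_union_of_disjoint, card_biUnion]
      · intro t _ t' _ htt
        rw [Function.onFun, Finset.disjoint_left]
        intro r hr hr'
        rw [mem_filter] at hr hr'
        have := hr.2.2.2.symm.trans hr'.2.2.2
        exact htt (Option.some.inj this)
      · rw [Finset.disjoint_left]
        intro r hr hr'
        rw [mem_biUnion] at hr
        obtain ⟨t, _, hr⟩ := hr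
        rw [mem_filter] at hr hr'
        rw [hr'.2.2.2] at hr
        simp at hr
    · refine le_trans (le_of_eq ?_) h2
      rw [← card_biUnion]
      · congr 1
        ext r
        simp only [mem_filter, mem_univ, true_and, mem_biUnion]
        constructor
        · rintro ⟨C, h6, _, h7⟩
          exact ⟨h6, h7⟩
        · rintro ⟨h6, h7⟩
          exact ⟨cls r, h6, rfl, h7⟩
      · intro C _ C' _ hCC
        rw [Function.onFun, Finset.disjoint_left]
        intro r hr hr'
        rw [mem_filter] at hr hr'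
        exact hCC (hr.2.2.1.symm.trans hr'.2.2.1)
    · intro t
      refine le_trans (le_of_eq ?_) (h3 t)
      rw [← card_biUnion]
      · congr 1
        ext r
        simp only [mem_filter, mem_univ, true_and, mem_biUnion, Option.map_eq_some_iff]
        constructor
        · rintro ⟨C, h6, _, h7⟩
          exact ⟨h6, h7⟩
        · rintro ⟨h6, h7⟩
          exact ⟨cls r, h6, rfl, h7⟩
      · intro C _ C' _ hCC
        rw [Function.onFun, Finset.disjoint_left]
        intro r hr hr'
        rw [mem_filter] at hr hr'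
        exact hCC (hr.2.2.1.symm.trans hr'.2.2.1)

/-- **Per-class form** (B2): if `lb C - K0 * u ≤` the value of every distribution of the expanded
rows of the class `C` over the types and `u` unit columns, then `∑ lb C - K0 * #U` is a lower
bound of the valuation of the determinant. -/
theorem QV.fmat_perClass (M : Matrix ι ι ℚ) (ex : ι → Prop) [DecidablePred ex] (cls : ι → γ)
    (c0 : γ → ℤ) (a : ι → ℤ) (j : ι → ℕ) (U : Finset ι) (tc : ι → τ) (P : ι → ℚ[X])
    (G : τ → ι → ℕ → ℚ) (e : τ → γ → ℤ) (lb : γ → ℤ) (K0 : ℤ) (hK0 : 0 ≤ K0)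
    (hP : ∀ c, c ∉ U → ∀ i, QV q 0 ((P c).coeff i))
    (hc0 : ∀ r, ex r → (q : ℤ) ∣ a r - c0 (cls r))
    (hG : ∀ t r l, ex r → l ≤ j r → QV q (e t (cls r) - l) (G t r l))
    (hM : ∀ r c, ex r → c ∉ U → M r c = jet (G (tc c) r) (a r) (j r) (P c))
    (hU : ∀ r c, ex r → c ∈ U → QV q 0 (M r c))
    (hN : ∀ r c, ¬ ex r → QV q 0 (M r c))
    (hlb : ∀ C, ∀ s : τ → ℕ, ∀ u : ℕ, ∑ t, s t + u = #{r | ex r ∧ cls r = C} →
      lb C - K0 * u ≤
        ∑ t, (tri (s t) + e t C * s t) - ∑ r with ex r ∧ cls r = C, (j r : ℤ)) :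
    QV q (∑ C, lb C - K0 * #U) M.det := by
  refine QV.fmat_core M ex cls c0 a j U tc P G e _ hP hc0 hG hM hU hN ?_
  intro s u h1 h2 _
  have h3 : ∑ C, (lb C - K0 * u C) ≤ ∑ C, (∑ t, (tri (s t C) + e t C * s t C) -
      ∑ r with ex r ∧ cls r = C, (j r : ℤ)) :=
    Finset.sum_le_sum fun C _ => hlb C (fun t => s t C) (u C) (h1 C)
  refine le_trans ?_ h3
  rw [Finset.sum_sub_distrib, ← Finset.mul_sum]
  have h4 : ((∑ C, u C : ℕ) : ℤ) ≤ #U := by exact_mod_cast h2
  push_cast at h4
  have := mul_le_mul_of_nonneg_left h4 hK0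
  linarith

/-- **Global form** (B1): all rows are expanded, `g` classes (for instance all residue classes
modulo `q`), the columns of type `t` are `n t` in number. -/
theorem QV.fmat_global (M : Matrix ι ι ℚ) (cls : ι → γ)
    (c0 : γ → ℤ) (a : ι → ℤ) (j : ι → ℕ) (U : Finset ι) (tc : ι → τ) (P : ι → ℚ[X])
    (G : τ → ι → ℕ → ℚ) (e : τ → γ → ℤ) (n : τ → ℕ) (hγ : 0 < Fintype.card γ)
    (hn : ∀ t, ((#{c | c ∉ U ∧ tc c = t} : ℕ) : ℤ) + ∑ C, e t C = n t)
    (hP : ∀ c, c ∉ U → ∀ i, QV q 0 ((P c).coeff i))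
    (hc0 : ∀ r, (q : ℤ) ∣ a r - c0 (cls r))
    (hG : ∀ t r l, l ≤ j r → QV q (e t (cls r) - l) (G t r l))
    (hM : ∀ r c, c ∉ U → M r c = jet (G (tc c) r) (a r) (j r) (P c))
    (hU : ∀ r c, c ∈ U → QV q 0 (M r c)) :
    QV q (∑ t, (((∑ i ∈ range (n t), i / Fintype.card γ : ℕ) : ℤ) - ∑ C, tri (e t C)) -
      ∑ r, (j r : ℤ)) M.det := by
  classical
  refine QV.fmat_core M (fun _ => True) cls c0 a j U tc P G e _ hP (fun r _ => hc0 r)
    (fun t r l _ => hG t r l) (fun r c _ => hM r c) (fun r c _ => hU r c)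
    (fun r c h => absurd trivial h) ?_
  intro s u h1 h2 h3
  simp only [true_and] at h1 ⊢
  -- the numbers of rows of each type are forced
  have hcls : ∑ C, #{r | cls r = C} = Fintype.card ι := by
    rw [← Finset.card_univ (α := ι)]
    exact (Finset.card_eq_sum_card_fiberwise (f := cls) (s := univ) (t := univ)
      (fun _ _ => mem_coe.2 (mem_univ _))).symm
  have htot : ∑ t, ∑ C, s t C + ∑ C, u C = Fintype.card ι := by
    rw [Finset.sum_comm, ← Finset.sum_add_distrib, ← hcls]
    exact Finset.sum_congr rfl fun C _ => h1 C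
  have hcol : ∑ t, #{c | c ∉ U ∧ tc c = t} + #U = Fintype.card ι := by
    have h5 : ∑ t, #{c | c ∉ U ∧ tc c = t} = #{c | c ∉ U} := by
      have h6 := Finset.card_eq_sum_card_fiberwise (f := tc)
        (s := univ.filter fun c => c ∉ U) (t := (univ : Finset τ))
        (fun _ _ => mem_coe.2 (mem_univ _))
      rw [h6]
      refine Finset.sum_congr rfl fun t _ => ?_
      rw [Finset.filter_filter]
    have h7 : #{c | c ∉ U} = #(univ \ U) := by
      congr 1
      ext c
      simp
    rw [h5, h7, Finset.card_univ_sdiff]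
    have := Finset.card_le_univ U
    omega
  have heq : ∀ t, ∑ C, s t C = #{c | c ∉ U ∧ tc c = t} := by
    have h5 : ∑ t, ∑ C, s t C ≤ ∑ t, #{c | c ∉ U ∧ tc c = t} :=
      Finset.sum_le_sum fun t _ => h3 t
    have h6 : ∑ t, ∑ C, s t C = ∑ t, #{c | c ∉ U ∧ tc c = t} := by omega
    intro t
    exact (Finset.sum_eq_sum_iff_of_le (fun t _ => h3 t)).1 h6 t (mem_univ t)
  have hmain : ∀ t, ((∑ i ∈ range (n t), i / Fintype.card γ : ℕ) : ℤ) - ∑ C, tri (e t C) ≤
      ∑ C, (tri (s t C) + e t C * s t C) := by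
    intro t
    have h7 : ∑ C, ((s t C : ℤ) + e t C) = n t := by
      rw [Finset.sum_add_distrib, ← hn t, ← heq t]
      push_cast
      rfl
    have h8 := sum_tri_ge (univ : Finset γ) (by simpa using hγ)
      (fun C => (s t C : ℤ) + e t C) (n t) h7
    rw [Finset.card_univ] at h8
    have h9 : ∑ C, (tri (s t C) + e t C * s t C) =
        ∑ C, tri ((s t C : ℤ) + e t C) - ∑ C, tri (e t C) := by
      rw [← Finset.sum_sub_distrib]
      exact Finset.sum_congr rfl fun C _ => tri_add_mul _ _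
    rw [h9]
    linarith
  have hj : ∑ C, ∑ r with cls r = C, (j r : ℤ) = ∑ r, (j r : ℤ) :=
    Finset.sum_fiberwise_of_maps_to (fun _ _ => mem_univ _) _
  have h10 : ∑ C, (∑ t, (tri (s t C) + e t C * s t C) - ∑ r with cls r = C, (j r : ℤ)) =
      ∑ t, ∑ C, (tri (s t C) + e t C * s t C) - ∑ r, (j r : ℤ) := by
    rw [Finset.sum_sub_distrib, hj, Finset.sum_comm]
  rw [h10]
  have := Finset.sum_le_sum fun t (_ : t ∈ (univ : Finset τ)) => hmain t
  linarith

end main

end H51QD
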