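import Mathlib

/-!
# q-adic linear algebra

`QV q k x`: the rational number `x` has `q`-adic valuation at least `k` (true for `x = 0`).

* `QV.det_potential`: Leibniz with potentials.
* `QV.det_expand`: multilinear expansion of a determinant over classes of rows.
* `QV.det_expand_typed`: the same with types of columns.
* `sum_half_ge`: integer convexity of `u (u - 1) / 2`.
-/

namespace H51QD

open Finset Matrix

/-- `QV q k x`: the rational number `x` has `q`-adic valuation at least `k` (or is zero). -/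
def QV (q : ℕ) (k : ℤ) (x : ℚ) : Prop := x ≠ 0 → k ≤ padicValRat q x

section basic

variable {q : ℕ}

theorem QV.zero (k : ℤ) : QV q k 0 := fun h => absurd rfl h

theorem QV.mono {k l : ℤ} {x : ℚ} (h : QV q k x) (hl : l ≤ k) : QV q l x :=
  fun hx => hl.trans (h hx)

theorem QV.neg {k : ℤ} {x : ℚ} (h : QV q k x) : QV q k (-x) := by
  intro hx
  rw [padicValRat.neg]
  exact h (by simpa using hx)

theorem QV.neg_iff {k : ℤ} {x : ℚ} : QV q k (-x) ↔ QV q k x :=
  ⟨fun h => by simpa using h.neg, fun h => h.neg⟩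

theorem QV.add [hq : Fact q.Prime] {k : ℤ} {x y : ℚ} (hx : QV q k x) (hy : QV q k y) :
    QV q k (x + y) := by
  intro h
  by_cases hx0 : x = 0
  · subst hx0
    rw [zero_add] at h ⊢
    exact hy h
  by_cases hy0 : y = 0
  · subst hy0
    rw [add_zero] at h ⊢
    exact hx h
  exact (le_min (hx hx0) (hy hy0)).trans (padicValRat.min_le_padicValRat_add h)

theorem QV.sub [hq : Fact q.Prime] {k : ℤ} {x y : ℚ} (hx : QV q k x) (hy : QV q k y) :
    QV q k (x - y) := by
  rw [sub_eq_add_neg]
  exact hx.add hy.neg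

theorem QV.sum [hq : Fact q.Prime] {α : Type*} (s : Finset α) {k : ℤ} {f : α → ℚ}
    (h : ∀ a ∈ s, QV q k (f a)) : QV q k (∑ a ∈ s, f a) := by
  classical
  induction s using Finset.induction_on with
  | empty => simpa using QV.zero k
  | insert a s ha ih =>
    rw [Finset.sum_insert ha]
    exact (h a (mem_insert_self a s)).add (ih fun b hb => h b (mem_insert_of_mem hb))

theorem QV.mul [hq : Fact q.Prime] {k l : ℤ} {x y : ℚ} (hx : QV q k x) (hy : QV q l y) :
    QV q (k + l) (x * y) := by
  intro h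
  have hx0 : x ≠ 0 := left_ne_zero_of_mul h
  have hy0 : y ≠ 0 := right_ne_zero_of_mul h
  rw [padicValRat.mul hx0 hy0]
  exact add_le_add (hx hx0) (hy hy0)

theorem QV.int (n : ℤ) : QV q 0 (n : ℚ) := by
  intro _
  rw [padicValRat.of_int]
  exact Int.natCast_nonneg _

theorem QV.nat (n : ℕ) : QV q 0 (n : ℚ) := by
  have := QV.int (q := q) (n : ℤ)
  simpa using this

theorem QV.one : QV q 0 (1 : ℚ) := by simpa using QV.nat (q := q) 1

theorem QV.prod [hq : Fact q.Prime] {α : Type*} (s : Finset α) {k : α → ℤ} {f : α → ℚ}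
    (h : ∀ a ∈ s, QV q (k a) (f a)) : QV q (∑ a ∈ s, k a) (∏ a ∈ s, f a) := by
  classical
  induction s using Finset.induction_on with
  | empty => simpa using QV.one
  | insert a s ha ih =>
    rw [Finset.sum_insert ha, Finset.prod_insert ha]
    exact (h a (mem_insert_self a s)).mul (ih fun b hb => h b (mem_insert_of_mem hb))

theorem QV.of_dvd [_hq : Fact q.Prime] {k : ℕ} {n : ℤ} (h : (q : ℤ) ^ k ∣ n) :
    QV q k (n : ℚ) := by
  intro hn
  have hn0 : n ≠ 0 := by exact_mod_cast hn
  rw [padicValRat.of_int]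
  exact_mod_cast (padicValInt_dvd_iff k n).1 h |>.resolve_left hn0

theorem QV.pow [hq : Fact q.Prime] {k : ℤ} {x : ℚ} (hx : QV q k x) (n : ℕ) :
    QV q (n * k) (x ^ n) := by
  induction n with
  | zero => simpa using QV.one
  | succ n ih =>
    rw [pow_succ]
    have := ih.mul hx
    refine this.mono (le_of_eq ?_)
    push_cast
    ring

theorem QV.sign [hq : Fact q.Prime] {k : ℤ} {x : ℚ} (u : ℤˣ) (hx : QV q k x) :
    QV q k ((u : ℤ) * x) := by
  rcases Int.units_eq_one_or u with h | h
  · simpa [h] using hx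
  · simpa [h] using hx.neg

/-- the valuation is determined from both sides -/
theorem QV.le_of_mul [hq : Fact q.Prime] {k : ℤ} {x y : ℚ} (hx : x ≠ 0)
    (h : QV q k (x * y)) : QV q (k - padicValRat q x) y := by
  intro hy
  have := h (mul_ne_zero hx hy)
  rw [padicValRat.mul hx hy] at this
  linarith

end basic

section leibniz

variable {q : ℕ} [hq : Fact q.Prime] {ι : Type*} [Fintype ι] [DecidableEq ι]

/-- Leibniz with potentials. -/
theorem QV.det_potential (M : Matrix ι ι ℚ) (w z : ι → ℤ)
    (h : ∀ r c, QV q (w c - z r) (M r c)) : QV q (∑ c, w c - ∑ r, z r) M.det := by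
  rw [Matrix.det_apply']
  refine QV.sum _ fun σ _ => ?_
  refine QV.sign _ ?_
  have h1 : QV q (∑ c, (w c - z (σ c))) (∏ c, M (σ c) c) := QV.prod _ fun c _ => h (σ c) c
  refine h1.mono (le_of_eq ?_)
  rw [Finset.sum_sub_distrib, Equiv.sum_comp σ z]

/-- Determinant of a matrix with `q`-integral entries. -/
theorem QV.det_int (M : Matrix ι ι ℚ) (h : ∀ r c, QV q 0 (M r c)) : QV q 0 M.det := by
  have := QV.det_potential M (fun _ => 0) (fun _ => 0) (by simpa using h)
  simpa using this

end leibniz

section expand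

variable {q : ℕ} [hq : Fact q.Prime] {ι κ γ : Type*} [Fintype ι] [DecidableEq ι] [Fintype κ]

theorem det_expand_eq (M : Matrix ι ι ℚ) (S : ι → κ → ℚ) (X : ι → κ → ι → ℚ)
    (hM : ∀ r c, M r c = ∑ k, S r k * X r k c) :
    M.det = ∑ φ : ι → κ, (∏ r, S r (φ r)) * (Matrix.of fun r c => X r (φ r) c).det := by
  classical
  have h1 : M = fun r => ∑ k, (S r k • X r k : ι → ℚ) := by
    funext r c
    rw [hM, Finset.sum_apply]
    rfl
  have h2 : M.det = (Matrix.detRowAlternating (R := ℚ) (n := ι)).toMultilinearMap M := rfl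
  rw [h2, h1, MultilinearMap.map_sum]
  refine Finset.sum_congr rfl fun φ _ => ?_
  have h3 := (Matrix.detRowAlternating (R := ℚ) (n := ι)).toMultilinearMap.map_smul_univ
    (fun r => S r (φ r)) (fun r => X r (φ r))
  rw [h3]
  rfl

/-- Multilinear expansion over classes of rows. -/
theorem QV.det_expand (M : Matrix ι ι ℚ) (cls : ι → γ) (S : ι → κ → ℚ) (X : γ → κ → ι → ℚ)
    (v : ι → κ → ℤ) (B : ℤ)
    (hM : ∀ r c, M r c = ∑ k, S r k * X (cls r) k c)
    (hS : ∀ r k, QV q (v r k) (S r k)) (hX : ∀ g k c, QV q 0 (X g k c))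
    (hB : ∀ φ : ι → κ, (∀ r r', cls r = cls r' → φ r = φ r' → r = r') →
      B ≤ ∑ r, v r (φ r)) :
    QV q B M.det := by
  classical
  rw [det_expand_eq M S (fun r k c => X (cls r) k c) hM]
  refine QV.sum _ fun φ _ => ?_
  by_cases hφ : ∀ r r', cls r = cls r' → φ r = φ r' → r = r'
  · have h1 : QV q (∑ r, v r (φ r)) (∏ r, S r (φ r)) := QV.prod _ fun r _ => hS r (φ r)
    have h2 : QV q 0 (Matrix.of fun r c => X (cls r) (φ r) c).det :=
      QV.det_int _ fun r c => hX _ _ _
    have h3 := h1.mul h2
    rw [add_zero] at h3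
    exact h3.mono (hB φ hφ)
  · push Not at hφ
    obtain ⟨r, r', h1, h2, h3⟩ := hφ
    have h4 : (Matrix.of fun r c => X (cls r) (φ r) c).det = 0 := by
      refine Matrix.det_zero_of_row_eq h3 ?_
      funext c
      simp [h1, h2]
    rw [h4, mul_zero]
    exact QV.zero _

/-- A matrix with typed rows and columns has determinant zero if the numbers of rows and columns
of some type are different. -/
theorem det_eq_zero_of_type {τ : Type*} [DecidableEq τ] (M : Matrix ι ι ℚ) (tr tc : ι → τ)
    (h : ∀ r c, tr r ≠ tc c → M r c = 0) (t : τ)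
    (ht : #{r | tr r = t} ≠ #{c | tc c = t}) : M.det = 0 := by
  classical
  rw [Matrix.det_apply']
  refine Finset.sum_eq_zero fun σ _ => ?_
  by_cases hσ : ∀ c, tr (σ c) = tc c
  · exfalso
    apply ht
    have : (univ.filter fun r => tr r = t) = (univ.filter fun c => tc c = t).map σ.toEmbedding := by
      ext r
      simp only [mem_filter, mem_univ, true_and, mem_map_equiv]
      constructor
      · intro hr
        have := hσ (σ.symm r)
        rw [Equiv.apply_symm_apply] at this
        rw [← this, hr]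
      · intro hr
        have := hσ (σ.symm r)
        rw [Equiv.apply_symm_apply] at this
        rw [this, hr]
    rw [this, card_map]
  · push Not at hσ
    obtain ⟨c, hc⟩ := hσ
    have : ∏ i, M (σ i) i = 0 := Finset.prod_eq_zero (mem_univ c) (h _ _ hc)
    rw [this, mul_zero]

/-- Multilinear expansion over classes of rows, with types of columns. -/
theorem QV.det_expand_typed {τ : Type*} [DecidableEq τ] (M : Matrix ι ι ℚ) (cls : ι → γ)
    (S : ι → κ → ℚ) (X : γ → κ → ι → ℚ) (tk : κ → τ) (tc : ι → τ)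
    (v : ι → κ → ℤ) (B : ℤ)
    (hM : ∀ r c, M r c = ∑ k, S r k * X (cls r) k c)
    (hS : ∀ r k, QV q (v r k) (S r k)) (hX : ∀ g k c, QV q 0 (X g k c))
    (hX0 : ∀ g k c, tk k ≠ tc c → X g k c = 0)
    (hB : ∀ φ : ι → κ, (∀ r r', cls r = cls r' → φ r = φ r' → r = r') →
      (∀ t, #{r | tk (φ r) = t} = #{c | tc c = t}) → B ≤ ∑ r, v r (φ r)) :
    QV q B M.det := by
  classical
  rw [det_expand_eq M S (fun r k c => X (cls r) k c) hM]
  refine QV.sum _ fun φ _ => ?_
  by_cases hφ : ∀ r r', cls r = cls r' → φ r = φ r' → r = r'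
  · by_cases hφ2 : ∀ t, #{r | tk (φ r) = t} = #{c | tc c = t}
    · have h1 : QV q (∑ r, v r (φ r)) (∏ r, S r (φ r)) := QV.prod _ fun r _ => hS r (φ r)
      have h2 : QV q 0 (Matrix.of fun r c => X (cls r) (φ r) c).det :=
        QV.det_int _ fun r c => hX _ _ _
      have h3 := h1.mul h2
      rw [add_zero] at h3
      exact h3.mono (hB φ hφ hφ2)
    · push Not at hφ2
      obtain ⟨t, ht⟩ := hφ2
      have h4 : (Matrix.of fun r c => X (cls r) (φ r) c).det = 0 :=
        det_eq_zero_of_type _ (fun r => tk (φ r)) tc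
          (fun r c hrc => hX0 _ _ _ hrc) t ht
      rw [h4, mul_zero]
      exact QV.zero _
  · push Not at hφ
    obtain ⟨r, r', h1, h2, h3⟩ := hφ
    have h4 : (Matrix.of fun r c => X (cls r) (φ r) c).det = 0 := by
      refine Matrix.det_zero_of_row_eq h3 ?_
      funext c
      simp [h1, h2]
    rw [h4, mul_zero]
    exact QV.zero _

end expand

section support

variable {ι : Type*} [Fintype ι] [DecidableEq ι]

/-- If more than `#T` rows of a square matrix are supported on the column set `T`, the
determinant vanishes. -/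
theorem det_eq_zero_of_support (M : Matrix ι ι ℚ) (R T : Finset ι)
    (h : ∀ r ∈ R, ∀ c, c ∉ T → M r c = 0) (hc : #T < #R) : M.det = 0 := by
  classical
  rw [Matrix.det_apply']
  refine Finset.sum_eq_zero fun σ _ => ?_
  -- some row of `R` meets a column outside `T`
  have h1 : ∃ r ∈ R, σ.symm r ∉ T := by
    by_contra hcon
    push Not at hcon
    have h2 : R.map σ.symm.toEmbedding ⊆ T := by
      intro x hx
      rw [mem_map] at hx
      obtain ⟨r, hr, rfl⟩ := hx
      exact hcon r hr
    have h3 := card_le_card h2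
    rw [card_map] at h3
    omega
  obtain ⟨r, hr, hrT⟩ := h1
  have : ∏ i, M (σ i) i = 0 := by
    refine Finset.prod_eq_zero (mem_univ (σ.symm r)) ?_
    rw [Equiv.apply_symm_apply]
    exact h r hr _ hrT
  rw [this, mul_zero]

end support

section master

variable {q : ℕ} [hq : Fact q.Prime] {ι κ γ τ : Type*} [Fintype ι] [DecidableEq ι] [Fintype κ]
  [DecidableEq κ] [DecidableEq τ]

/-- Master expansion. Rows with `ex r` are expanded as `∑ k, S r k * X (cls r) k`; the columns in
`U` are arbitrary integral columns; the rows without `ex r` are integral and not expanded. -/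
theorem QV.det_master (M : Matrix ι ι ℚ) (ex : ι → Prop) [DecidablePred ex] (cls : ι → γ)
    (U : Finset ι) (S : ι → κ → ℚ) (X : γ → κ → ι → ℚ) (tk : κ → τ) (tc : ι → τ)
    (v : ι → κ → ℤ) (B : ℤ)
    (hM : ∀ r c, ex r → c ∉ U → M r c = ∑ k, S r k * X (cls r) k c)
    (hU : ∀ r c, ex r → c ∈ U → QV q 0 (M r c))
    (hN : ∀ r c, ¬ ex r → QV q 0 (M r c))
    (hS : ∀ r k, ex r → QV q (v r k) (S r k))
    (hX : ∀ g k c, c ∉ U → QV q 0 (X g k c))
    (hX0 : ∀ g k c, c ∉ U → tk k ≠ tc c → X g k c = 0)
    (hB : ∀ φ : ι → Option κ,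
      (∀ r r' k, ex r → ex r' → cls r = cls r' → φ r = some k → φ r' = some k → r = r') →
      #{r | ex r ∧ φ r = none} ≤ #U →
      (∀ t, #{r | ex r ∧ ∃ k, φ r = some k ∧ tk k = t} ≤ #{c | c ∉ U ∧ tc c = t}) →
      (∀ r, ¬ ex r → φ r = none) → B ≤ ∑ r, (φ r).elim 0 (v r)) :
    QV q B M.det := by
  classical
  set S' : ι → Option κ → ℚ := fun r o => o.elim 1 (fun k => if ex r then S r k else 0) with hS'
  set X' : ι → Option κ → ι → ℚ := fun r o c =>
    o.elim (if ex r then (if c ∈ U then M r c else 0) else M r c)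
      (fun k => if c ∈ U then 0 else X (cls r) k c) with hX'
  have hM' : ∀ r c, M r c = ∑ o, S' r o * X' r o c := by
    intro r c
    rw [Fintype.sum_option]
    simp only [hS', hX', Option.elim_none, Option.elim_some, one_mul]
    by_cases hr : ex r
    · by_cases hc : c ∈ U
      · simp [hr, hc]
      · simp only [hr, hc, if_true, if_false, zero_add]
        exact hM r c hr hc
    · simp [hr]
  have hXint : ∀ r o c, QV q 0 (X' r o c) := by
    intro r o c
    simp only [hX']
    cases o with
    | none =>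
      simp only [Option.elim_none]
      split_ifs with h1 h2
      · exact hU r c h1 h2
      · exact QV.zero _
      · exact hN r c h1
    | some k =>
      simp only [Option.elim_some]
      split_ifs with h1
      · exact QV.zero _
      · exact hX _ _ _ h1
  rw [det_expand_eq M S' X' hM']
  refine QV.sum _ fun φ _ => ?_
  -- rows that are not expanded must pick `none`
  by_cases h0 : ∀ r, ¬ ex r → φ r = none
  swap
  · push Not at h0
    obtain ⟨r, hr, hr2⟩ := h0
    obtain ⟨k, hk⟩ := Option.ne_none_iff_exists'.1 hr2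
    have : ∏ r, S' r (φ r) = 0 := by
      refine Finset.prod_eq_zero (mem_univ r) ?_
      simp [hS', hk, hr]
    rw [this, zero_mul]
    exact QV.zero _
  by_cases h1 : ∀ r r' k, ex r → ex r' → cls r = cls r' → φ r = some k → φ r' = some k → r = r'
  swap
  · push Not at h1
    obtain ⟨r, r', k, hr, hr', hc, hk, hk', hne⟩ := h1
    have h4 : (Matrix.of fun r c => X' r (φ r) c).det = 0 := by
      refine Matrix.det_zero_of_row_eq hne ?_
      funext c
      simp [hX', hk, hk', hc]
    rw [h4, mul_zero]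
    exact QV.zero _
  by_cases h2 : #{r | ex r ∧ φ r = none} ≤ #U
  swap
  · have h4 : (Matrix.of fun r c => X' r (φ r) c).det = 0 := by
      refine det_eq_zero_of_support _ {r | ex r ∧ φ r = none} U ?_ (not_le.1 h2)
      intro r hr c hc
      rw [mem_filter] at hr
      simp [hX', hr.2.1, hr.2.2, hc]
    rw [h4, mul_zero]
    exact QV.zero _
  by_cases h3 : ∀ t, #{r | ex r ∧ ∃ k, φ r = some k ∧ tk k = t} ≤ #{c | c ∉ U ∧ tc c = t}
  swap
  · push Not at h3
    obtain ⟨t, ht⟩ := h3
    have h4 : (Matrix.of fun r c => X' r (φ r) c).det = 0 := by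
      refine det_eq_zero_of_support _ {r | ex r ∧ ∃ k, φ r = some k ∧ tk k = t}
        {c | c ∉ U ∧ tc c = t} ?_ ht
      intro r hr c hc
      rw [mem_filter] at hr hc
      obtain ⟨_, hr, k, hk, hkt⟩ := hr
      by_cases hcU : c ∈ U
      · simp [hX', hk, hcU]
      · have : tk k ≠ tc c := by
          intro hkc
          exact hc ⟨mem_univ c, hcU, by rw [← hkc, hkt]⟩
        simp [hX', hk, hcU, hX0 _ _ _ hcU this]
    rw [h4, mul_zero]
    exact QV.zero _
  have h5 : QV q (∑ r, (φ r).elim 0 (v r)) (∏ r, S' r (φ r)) := by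
    refine QV.prod _ fun r _ => ?_
    cases hr : φ r with
    | none =>
      simp only [hS', Option.elim_none]
      exact QV.one
    | some k =>
      have hex : ex r := by
        by_contra hex
        rw [h0 r hex] at hr
        exact absurd hr (by simp)
      simp only [hS', Option.elim_some, hex, if_true]
      exact hS r k hex
  have h6 : QV q 0 (Matrix.of fun r c => X' r (φ r) c).det := QV.det_int _ fun r c => hXint _ _ _
  have h7 := h5.mul h6
  rw [add_zero] at h7
  exact h7.mono (hB φ h1 h2 h3 h0)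

end master

section convex

/-- `tri u = u (u - 1) / 2`. -/
def tri (u : ℤ) : ℤ := u * (u - 1) / 2

theorem two_mul_tri (u : ℤ) : 2 * tri u = u * (u - 1) := by
  unfold tri
  exact Int.mul_ediv_cancel' (by
    rcases Int.even_or_odd u with h | h
    · exact h.two_dvd.mul_right _
    · exact (h.sub_odd odd_one).two_dvd.mul_left _)

theorem tri_zero : tri 0 = 0 := rfl

theorem tri_one : tri 1 = 0 := rfl

theorem tri_nonneg (u : ℤ) : 0 ≤ tri u := by
  have h := two_mul_tri u
  rcases le_or_gt u 0 with h0 | h0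
  · nlinarith
  · have : 1 ≤ u := h0
    nlinarith

/-- tangent line at the integer point between `t` and `t + 1` -/
theorem tri_tangent (u t : ℤ) : t * u - tri (t + 1) ≤ tri u := by
  have h1 := two_mul_tri u
  have h2 := two_mul_tri (t + 1)
  have h3 : 0 ≤ (u - t) * (u - t - 1) := by
    rcases le_or_gt (u - t) 0 with h | h
    · exact mul_nonneg_of_nonpos_of_nonpos h (by linarith)
    · have : 1 ≤ u - t := h
      exact mul_nonneg h.le (by linarith)
  nlinarith

/-- completing the square -/
theorem tri_add_mul (s e : ℤ) : tri s + e * s = tri (s + e) - tri e := by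
  have h1 := two_mul_tri s
  have h2 := two_mul_tri (s + e)
  have h3 := two_mul_tri e
  nlinarith

theorem sum_div_eq (g n : ℕ) (hg : 0 < g) :
    ((∑ i ∈ range n, i / g : ℕ) : ℤ) = (n / g : ℕ) * n - g * tri ((n / g : ℕ) + 1) := by
  induction n with
  | zero => simp [tri]
  | succ n ih =>
    rw [Finset.sum_range_succ, Nat.cast_add, ih]
    have h1 := two_mul_tri (((n / g : ℕ) : ℤ) + 1)
    have h2 := two_mul_tri ((((n + 1) / g : ℕ) : ℤ) + 1)
    by_cases hd : g ∣ n + 1
    · have h3 : (n + 1) / g = n / g + 1 := Nat.succ_div_of_dvd hd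
      obtain ⟨k, hk⟩ := hd
      have h4 : (n + 1) / g = k := by rw [hk]; exact Nat.mul_div_cancel_left k hg
      have h5 : ((n / g : ℕ) : ℤ) = k - 1 := by
        have : n / g + 1 = k := by rw [← h3, h4]
        omega
      have h6 : (n : ℤ) = g * k - 1 := by
        have : ((n + 1 : ℕ) : ℤ) = ((g * k : ℕ) : ℤ) := by rw [hk]
        push_cast at this
        linarith
      rw [h4] at h2 ⊢
      rw [h5] at h1 ⊢
      push_cast
      rw [h6]
      have h7 : 2 * ((k : ℤ) * (g * k - 1 + 1) - g * tri ((k : ℤ) + 1)) =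
          2 * (((k : ℤ) - 1) * (g * k - 1) - g * tri ((k : ℤ) - 1 + 1) + (k - 1)) := by
        have e1 : 2 * ((g : ℤ) * tri ((k : ℤ) + 1)) = g * (((k : ℤ) + 1) * (k + 1 - 1)) := by
          rw [← h2]; ring
        have e2 : 2 * ((g : ℤ) * tri ((k : ℤ) - 1 + 1)) =
            g * (((k : ℤ) - 1 + 1) * (k - 1 + 1 - 1)) := by
          rw [← h1]; ring
        linear_combination e2 - e1
      linarith
    · have h3 : (n + 1) / g = n / g := Nat.succ_div_of_not_dvd hd
      rw [h3]
      push_cast
      ring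

/-- integer convexity: `∑ u (u - 1) / 2` is smallest for the balanced distribution -/
theorem sum_tri_ge {γ : Type*} (Γ : Finset γ) (hΓ : 0 < #Γ) (u : γ → ℤ) (n : ℕ)
    (hn : ∑ C ∈ Γ, u C = n) : ((∑ i ∈ range n, i / #Γ : ℕ) : ℤ) ≤ ∑ C ∈ Γ, tri (u C) := by
  rw [sum_div_eq _ _ hΓ]
  set t : ℤ := ((n / #Γ : ℕ) : ℤ) with ht
  have h1 : ∑ C ∈ Γ, (t * u C - tri (t + 1)) ≤ ∑ C ∈ Γ, tri (u C) :=
    Finset.sum_le_sum fun C _ => tri_tangent _ _
  rw [Finset.sum_sub_distrib, ← Finset.mul_sum, hn, Finset.sum_const, nsmul_eq_mul] at h1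
  exact h1

/-- a sum of distinct natural numbers is at least `s (s - 1) / 2` -/
theorem tri_card_le_sum {ι : Type*} (s : Finset ι) (f : ι → ℕ) (hf : Set.InjOn f s) :
    tri #s ≤ ∑ r ∈ s, (f r : ℤ) := by
  classical
  have h1 : ∀ (n : ℕ) (T : Finset ℕ), #T = n → tri n ≤ ∑ x ∈ T, (x : ℤ) := by
    intro n
    induction n with
    | zero =>
      intro T hT
      rw [card_eq_zero] at hT
      subst hT
      simp [tri]
    | succ n ih =>
      intro T hT
      have hne : T.Nonempty := card_pos.1 (by omega)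
      set x := T.max' hne with hx
      have hxT : x ∈ T := max'_mem T hne
      have h2 : #(T.erase x) = n := by rw [card_erase_of_mem hxT, hT]; rfl
      have h3 := ih _ h2
      have h4 : n ≤ x := by
        have : T ⊆ range (x + 1) := fun y hy => mem_range.2 (Nat.lt_succ_of_le (le_max' T y hy))
        have := card_le_card this
        rw [hT, card_range] at this
        omega
      rw [← Finset.add_sum_erase T _ hxT]
      have e1 := two_mul_tri (n : ℤ)
      have e2 := two_mul_tri ((n + 1 : ℕ) : ℤ)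
      push_cast at e2 ⊢
      have h5 : (n : ℤ) ≤ x := by exact_mod_cast h4
      nlinarith
  have h2 := h1 #s (s.image f) (card_image_of_injOn hf)
  rwa [Finset.sum_image hf] at h2

end convex

end H51QD
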