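import Pool.Agent.H51.QD.Lin

/-!
# q-adic bounds for the coefficients of products of linear factors and their inverses

`PB q e L F`: the `l`-th coefficient of the power series `F` has valuation at least `e - l * L`.
-/

namespace H51QD

open Finset PowerSeries

/-- `PB q e L F`: the `l`-th coefficient of `F` has `q`-adic valuation at least `e - l * L`. -/
def PB (q : ℕ) (e : ℤ) (L : ℕ) (F : PowerSeries ℚ) : Prop :=
  ∀ l : ℕ, QV q (e - l * L) (coeff l F)

section

variable {q : ℕ} [hq : Fact q.Prime]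

theorem PB.mul {e e' : ℤ} {L : ℕ} {F G : PowerSeries ℚ} (hF : PB q e L F) (hG : PB q e' L G) :
    PB q (e + e') L (F * G) := by
  intro l
  rw [PowerSeries.coeff_mul]
  refine QV.sum _ fun p hp => ?_
  rw [Finset.HasAntidiagonal.mem_antidiagonal] at hp
  refine ((hF p.1).mul (hG p.2)).mono (le_of_eq ?_)
  rw [← hp]
  push_cast
  ring

omit hq in
theorem PB.one {L : ℕ} : PB q 0 L (1 : PowerSeries ℚ) := by
  intro l
  rw [PowerSeries.coeff_one]
  split_ifs with h
  · subst h
    simpa using QV.one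
  · exact QV.zero _

theorem PB.prod {α : Type*} (s : Finset α) {e : α → ℤ} {L : ℕ} {F : α → PowerSeries ℚ}
    (h : ∀ a ∈ s, PB q (e a) L (F a)) : PB q (∑ a ∈ s, e a) L (∏ a ∈ s, F a) := by
  classical
  induction s using Finset.induction_on with
  | empty => simpa using PB.one
  | insert a s ha ih =>
    rw [Finset.sum_insert ha, Finset.prod_insert ha]
    exact (h a (mem_insert_self a s)).mul (ih fun b hb => h b (mem_insert_of_mem hb))

omit hq in
theorem PB.mono {e e' : ℤ} {L : ℕ} {F : PowerSeries ℚ} (h : PB q e L F) (he : e' ≤ e) :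
    PB q e' L F := fun l => (h l).mono (by linarith)

omit hq in
theorem PB.mono_L {e : ℤ} {L L' : ℕ} {F : PowerSeries ℚ} (h : PB q e L F) (hL : L ≤ L') :
    PB q e L' F := by
  intro l
  refine (h l).mono ?_
  have : (l : ℤ) * L ≤ l * L' := by
    exact_mod_cast Nat.mul_le_mul_left l hL
  linarith

omit hq in
theorem PB.neg {e : ℤ} {L : ℕ} {F : PowerSeries ℚ} (h : PB q e L F) : PB q e L (-F) := by
  intro l
  rw [map_neg]
  exact (h l).neg

omit hq in
/-- a linear factor `x + c z` with `v_q (x) ≤ L` -/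
theorem PB.linear (x c : ℤ) (L : ℕ) (hL : padicValInt q x ≤ L) :
    PB q (padicValInt q x) L (C (x : ℚ) + C (c : ℚ) * X) := by
  intro l
  rw [map_add, PowerSeries.coeff_C, ← smul_eq_C_mul, map_smul, PowerSeries.coeff_X]
  rcases Nat.lt_trichotomy l 1 with h | h | h
  · have hl : l = 0 := by omega
    subst hl
    simp only [if_true, Nat.cast_zero, zero_mul, sub_zero, zero_ne_one, if_false, smul_zero,
      add_zero]
    intro _
    rw [padicValRat.of_int]
  · subst h
    simp only [one_ne_zero, if_false, if_true, zero_add, smul_eq_mul, mul_one, Nat.cast_one,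
      one_mul]
    refine (QV.int c).mono ?_
    have : (padicValInt q x : ℤ) ≤ L := by exact_mod_cast hL
    linarith
  · have h1 : l ≠ 0 := by omega
    have h2 : l ≠ 1 := by omega
    simp only [h1, h2, if_false, smul_zero, add_zero]
    exact QV.zero _

/-- the inverse of a linear factor `x + c z` with `x ≠ 0`, `v_q (x) ≤ L` -/
theorem PB.linear_inv (x c : ℤ) (hx : x ≠ 0) (L : ℕ) (hL : padicValInt q x ≤ L) :
    PB q (-(padicValInt q x : ℤ)) L (C (x : ℚ) + C (c : ℚ) * X)⁻¹ := by
  have hx' : (x : ℚ) ≠ 0 := by exact_mod_cast hx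
  have h1 : (C (x : ℚ) + C (c : ℚ) * X)⁻¹ =
      PowerSeries.mk fun l => (-(c : ℚ)) ^ l * (x : ℚ)⁻¹ ^ (l + 1) := by
    rw [PowerSeries.inv_eq_iff_mul_eq_one]
    · ext l
      rw [mul_add, map_add, PowerSeries.coeff_mul_C, PowerSeries.coeff_mk, mul_comm (C (c : ℚ)) X,
        ← mul_assoc, PowerSeries.coeff_mul_C, PowerSeries.coeff_one]
      cases l with
      | zero =>
        rw [PowerSeries.coeff_zero_mul_X]
        simp [hx']
      | succ l =>
        rw [PowerSeries.coeff_succ_mul_X, PowerSeries.coeff_mk]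
        simp only [Nat.add_one_ne_zero, if_false]
        have h2 : (x : ℚ)⁻¹ * x = 1 := inv_mul_cancel₀ hx'
        rw [pow_succ (x : ℚ)⁻¹ (l + 1), pow_succ (-(c : ℚ)) l]
        linear_combination ((-(c : ℚ)) ^ l * (-(c : ℚ)) * (x : ℚ)⁻¹ ^ (l + 1)) * h2
    · simp [hx']
  rw [h1]
  intro l
  rw [PowerSeries.coeff_mk]
  have h2 : QV q (-(padicValInt q x : ℤ)) ((x : ℚ)⁻¹) := by
    intro _
    rw [padicValRat.inv, padicValRat.of_int]
  have h3 : QV q 0 (-(c : ℚ)) := (QV.int c).neg
  have h4 := (h3.pow l).mul (h2.pow (l + 1))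
  refine h4.mono ?_
  have h5 : (padicValInt q x : ℤ) ≤ L := by exact_mod_cast hL
  have h6 : (l : ℤ) * (padicValInt q x : ℤ) ≤ l * L :=
    mul_le_mul_of_nonneg_left h5 (Int.natCast_nonneg l)
  push_cast
  nlinarith

end

section class_

/-- The class function: `+1` on even and `-1` on odd residues in `(Q/3, 2Q/3)`, `0` otherwise. -/
def eF (Q : ℕ) (t : ℤ) : ℤ :=
  if (Q : ℤ) < 3 * (t % Q) ∧ 3 * (t % Q) < 2 * Q then (if (t % Q) % 2 = 0 then 1 else -1) else 0

/-- indicator of divisibility -/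
def ind (Q : ℕ) (x : ℤ) : ℤ := if (Q : ℤ) ∣ x then 1 else 0

theorem eF_periodic (Q : ℕ) (t k : ℤ) : eF Q (t + Q * k) = eF Q t := by
  unfold eF
  rw [Int.add_mul_emod_self_left]

theorem eF_zero (Q : ℕ) : eF Q 0 = 0 := by
  unfold eF
  simp

theorem eF_one (Q : ℕ) (hQ : 3 ≤ Q) : eF Q 1 = 0 := by
  unfold eF
  have h : (1 : ℤ) % Q = 1 := Int.emod_eq_of_lt (by norm_num) (by exact_mod_cast (by omega : 1 < Q))
  rw [h, if_neg]
  intro h
  have : (3 : ℤ) ≤ Q := by exact_mod_cast hQ
  linarith [h.1]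

set_option maxHeartbeats 4000000 in
/-- recursion of the class function -/
theorem eF_step (Q : ℕ) (hQ : Q.Coprime 6) (hQ1 : 3 < Q) (t : ℤ) :
    eF Q (t + 2) - eF Q t =
      ind Q (3 * t + 1) + ind Q (3 * t + 5) - ind Q (3 * t + 2) - ind Q (3 * t + 4) := by
  have h6 : Q % 6 = 1 ∨ Q % 6 = 5 := by
    have h2 : ¬ 2 ∣ Q := fun h => by
      have := Nat.dvd_gcd h (by norm_num : 2 ∣ 6)
      rw [hQ] at this
      omega
    have h3 : ¬ 3 ∣ Q := fun h => by
      have := Nat.dvd_gcd h (by norm_num : 3 ∣ 6)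
      rw [hQ] at this
      omega
    omega
  obtain ⟨ρ, k, hρ0, hρ1, ht⟩ : ∃ ρ k : ℤ, 0 ≤ ρ ∧ ρ < Q ∧ t = ρ + Q * k :=
    ⟨t % Q, t / Q, Int.emod_nonneg _ (by omega), Int.emod_lt_of_pos _ (by omega),
      (Int.emod_add_mul_ediv t Q).symm⟩
  have hind : ∀ c : ℤ, ind Q (3 * t + c) = ind Q (3 * ρ + c) := by
    intro c
    unfold ind
    congr 1
    rw [ht]
    have : 3 * (ρ + Q * k) + c = 3 * ρ + c + Q * (3 * k) := by ring
    rw [this]
    exact propext (Int.dvd_add_left (Dvd.intro _ rfl))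
  rw [hind, hind, hind, hind]
  have he0 : eF Q t = eF Q ρ := by rw [ht, eF_periodic]
  have he2 : eF Q (t + 2) = eF Q (ρ + 2) := by
    rw [ht, show ρ + Q * k + 2 = ρ + 2 + Q * k by ring, eF_periodic]
  rw [he0, he2]
  -- divisibility in the bounded range
  have hdvd : ∀ c : ℤ, 0 < c → c < 6 → ((Q : ℤ) ∣ 3 * ρ + c ↔
      (3 * ρ + c = Q ∨ 3 * ρ + c = 2 * Q ∨ 3 * ρ + c = 3 * Q)) := by
    intro c hc0 hc6
    constructor
    · rintro ⟨m, hm⟩
      have hQ0 : (0 : ℤ) < Q := by exact_mod_cast (by omega : 0 < Q)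
      have hQ3 : (3 : ℤ) < Q := by exact_mod_cast hQ1
      have h1 : 0 < m := by
        by_contra h
        push Not at h
        have : (Q : ℤ) * m ≤ 0 := mul_nonpos_of_nonneg_of_nonpos hQ0.le h
        linarith
      have h2 : m < 4 := by
        by_contra h
        push Not at h
        have : (Q : ℤ) * 4 ≤ Q * m := mul_le_mul_of_nonneg_left h hQ0.le
        linarith
      interval_cases m
      · left; linarith
      · right; left; linarith
      · right; right; linarith
    · rintro (h | h | h)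
      · rw [h]
      · rw [h]; exact Dvd.intro_left _ rfl
      · rw [h]; exact Dvd.intro_left _ rfl
  unfold ind
  rw [if_congr (hdvd 1 (by norm_num) (by norm_num)) rfl rfl,
    if_congr (hdvd 5 (by norm_num) (by norm_num)) rfl rfl,
    if_congr (hdvd 2 (by norm_num) (by norm_num)) rfl rfl,
    if_congr (hdvd 4 (by norm_num) (by norm_num)) rfl rfl]
  unfold eF
  have hm0 : ρ % Q = ρ := Int.emod_eq_of_lt hρ0 hρ1
  have hm2 : (ρ + 2) % Q = if ρ + 2 < Q then ρ + 2 else ρ + 2 - Q := by
    split_ifs with h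
    · exact Int.emod_eq_of_lt (by linarith) h
    · push Not at h
      have hQ3 : (3 : ℤ) < Q := by exact_mod_cast hQ1
      rw [← Int.emod_eq_of_lt (a := ρ + 2 - Q) (b := Q) (by linarith) (by linarith)]
      have := Int.add_mul_emod_self_left (ρ + 2 - Q) Q 1
      rw [mul_one, sub_add_cancel] at this
      rw [← this]
  rw [hm0, hm2]
  split_ifs <;> omega

/-- symmetry: the sum of the class function over all residues is zero -/
theorem eF_neg (Q : ℕ) (hQ : Q % 2 = 1) (t : ℤ) : eF Q (-t) = -eF Q t := by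
  have hQ0 : (0 : ℤ) < Q := by exact_mod_cast (by omega : 0 < Q)
  unfold eF
  by_cases h0 : t % Q = 0
  · have h1 : (-t) % Q = 0 := by
      rw [← Int.dvd_iff_emod_eq_zero] at h0 ⊢
      exact (Int.dvd_neg).2 h0
    rw [h0, h1, if_neg, neg_zero]
    rintro ⟨h2, h3⟩
    linarith
  · have hpos : 0 < t % Q := lt_of_le_of_ne (Int.emod_nonneg _ hQ0.ne') (Ne.symm h0)
    have hlt : t % Q < Q := Int.emod_lt_of_pos _ hQ0
    have h1 : (-t) % Q = Q - t % Q := by
      have h2 : -t = (Q - t % Q) + Q * (-(t / Q) - 1) := by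
        have := Int.emod_add_mul_ediv t Q
        linarith
      rw [h2, Int.add_mul_emod_self_left]
      exact Int.emod_eq_of_lt (by linarith) (by linarith)
    rw [h1]
    split_ifs <;> omega

end class_

end H51QD
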